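import Pool.Agent.W851.BE.Stm

/-!
# Project BE, part BE-BDD: bounded radii
-/

open Polynomial Topology Filter MeasureTheory
open Pool.Agent.W95.BK Pool.Agent.W851.BE

namespace Pool.Agent.W446.BE.BDD

universe u
variable {K : Type u} [NontriviallyNormedField K] [IsUltrametricDist K] [IsAlgClosed K]

/-- values far out -/
lemma far (hVAL : S_VAL.{u}) (hISO : S_ISO.{u}) (h : K[X]) (ρ : ℝ)
    (hρ : ∀ w ∈ h.roots, ‖w‖ < ρ) (x : BA K) (hx : ρ < lam x 0) :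
    x h = ‖h.leadingCoeff‖ * (lam x 0) ^ h.natDegree := by
  rw [hVAL K x h]
  congr 1
  have h1 : h.roots.map (fun w => lam x w) = h.roots.map (fun _ => lam x 0) := by
    refine Multiset.map_congr rfl fun w hw => ?_
    exact (hISO K x w 0).2.2.2 (by rw [sub_zero]; exact (hρ w hw).trans hx)
  rw [h1, Multiset.map_const', Multiset.prod_replicate,
    ← (IsAlgClosed.splits h).natDegree_eq_card_roots]

structure Far (R : RMap K) (ρ κ : ℝ) (e : ℕ) : Prop where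
  ρ0 : 0 < ρ
  κ0 : 0 < κ
  rP : ∀ w ∈ R.P.roots, ‖w‖ < ρ
  rQ : ∀ w ∈ R.Q.roots, ‖w‖ < ρ
  he : R.P.natDegree = R.Q.natDegree + e
  e1 : 1 ≤ e
  hκ : ‖R.P.leadingCoeff‖ = κ * ‖R.Q.leadingCoeff‖
  Q0 : R.Q ≠ 0
  big : ∀ t, ρ < t → t ≤ κ * t ^ e
  alt : (e = 1 ∧ κ = 1) ∨ (∀ t, ρ < t → t < κ * t ^ e)

lemma ratio (hVAL : S_VAL.{u}) (hISO : S_ISO.{u}) {R : RMap K} {ρ κ : ℝ} {e : ℕ}
    (F : Far R ρ κ e) (x : BA K) (hx : ρ < lam x 0) :
    0 < x R.Q ∧ x R.P = κ * (lam x 0) ^ e * x R.Q := by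
  have hl : 0 < lam x 0 := F.ρ0.trans hx
  have h1 := far hVAL hISO R.P ρ F.rP x hx
  have h2 := far hVAL hISO R.Q ρ F.rQ x hx
  have h3 : 0 < ‖R.Q.leadingCoeff‖ := norm_pos_iff.2 (leadingCoeff_ne_zero.2 F.Q0)
  refine ⟨by rw [h2]; positivity, ?_⟩
  rw [h1, h2, F.he, F.hκ, pow_add]
  ring

lemma step (hVAL : S_VAL.{u}) (hISO : S_ISO.{u}) (hACT : S_ACT.{u}) {R : RMap K} {ρ κ : ℝ}
    {e : ℕ} (F : Far R ρ κ e) (x : BA K) (hH : HK x) (hx : ρ < lam x 0) :
    ∃ y : BA K, HK y ∧ R.act (x : P1B K) = (y : P1B K) ∧ lam y 0 = κ * (lam x 0) ^ e := by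
  obtain ⟨y, hy, h1, -, h2⟩ := (hACT K R).1 x hH
  refine ⟨y, hy, h1, ?_⟩
  have h3 := ratio hVAL hISO F x hx
  rw [h2 0, C_0, zero_mul, sub_zero, h3.2, mul_div_assoc, div_self h3.1.ne', mul_one]

lemma iter (hVAL : S_VAL.{u}) (hISO : S_ISO.{u}) (hACT : S_ACT.{u}) (hFUNC : S_FUNC.{u})
    {R : RMap K} {ρ κ : ℝ} {e : ℕ} (F : Far R ρ κ e) (x : BA K) (hH : HK x)
    (hx : ρ < lam x 0) (n : ℕ) :
    ∃ y : BA K, HK y ∧ (R.iter n).act (x : P1B K) = (y : P1B K) ∧ lam x 0 ≤ lam y 0 ∧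
      (1 ≤ n → (∀ t, ρ < t → t < κ * t ^ e) → lam x 0 < lam y 0) := by
  induction n with
  | zero => exact ⟨x, hH, (hFUNC K).2 _, le_rfl, fun h => absurd h (by omega)⟩
  | succ n ih =>
    obtain ⟨y, hy, h1, h2, -⟩ := ih
    obtain ⟨z, hz, h3, h4⟩ := step hVAL hISO hACT F y hy (hx.trans_le h2)
    refine ⟨z, hz, ?_, ?_, fun _ hs => ?_⟩
    · show (R.comp (R.iter n)).act _ = _
      rw [(hFUNC K).1, h1, h3]
    · rw [h4]; exact h2.trans (F.big _ (hx.trans_le h2))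
    · rw [h4]; exact h2.trans_lt (hs _ (hx.trans_le h2))

lemma coe_inj {x y : BA K} (h : (x : P1B K) = (y : P1B K)) : x = y := OnePoint.coe_injective h

/-- fixed points far out do not occur in the strict case -/
lemma strict_case (hVAL : S_VAL.{u}) (hISO : S_ISO.{u}) (hACT : S_ACT.{u}) (hFUNC : S_FUNC.{u})
    {R : RMap K} {ρ κ : ℝ} {e : ℕ} (F : Far R ρ κ e) (hs : ∀ t, ρ < t → t < κ * t ^ e)
    (x : BA K) (hH : HK x) (hx : ρ < lam x 0) (n : ℕ) (hn : 1 ≤ n) :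
    (R.iter n).act (x : P1B K) ≠ (x : P1B K) := by
  intro h
  obtain ⟨y, -, h1, -, h2⟩ := iter hVAL hISO hACT hFUNC F x hH hx n
  rw [h] at h1
  rw [coe_inj h1] at h2
  exact lt_irrefl _ (h2 hn hs)

/-- the neutral case -/
lemma neutral (hVAL : S_VAL.{u}) (hISO : S_ISO.{u}) (hFUNC : S_FUNC.{u}) (hGLAM : S_GLAM.{u})
    (hZT : S_ZT.{u}) (hSK : S_SK.{u}) (hCHAIN : S_CHAIN.{u}) (hITER : S_ITER.{u})
    {R : RMap K} {ρ : ℝ} (F : Far R ρ 1 1) (t : ℝ) (ht : ρ < t) (n : ℕ) (hn : 1 ≤ n) :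
    (R.iter n).act (zt 0 t) = zt 0 t ∧ localDeg (R.iter n) (zt 0 t) = 1 := by
  have hg : ∀ (s : ℝ) (h : K[X]) (hs : 0 < s), gn 0 s h = (gauss 0 s hs : BA K) h :=
    fun s h hs => rfl
  have key : R.act (zt 0 t) = zt 0 t ∧ localDeg R (zt 0 t) = 1 := by
    have := hSK K R 0 0 ρ (t + 1) 1 1 F.ρ0.le (by linarith) one_pos one_ne_zero
      (fun w hw hw2 => by
        rw [sub_zero] at hw2
        exact absurd (F.rQ w ((mem_roots F.Q0).2 hw)) (by linarith [hw2.1]))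
      (fun s hs1 hs2 => by
        have hs0 : 0 < s := F.ρ0.trans hs1
        rw [hg s _ hs0, hg s _ hs0, C_0, zero_mul, sub_zero]
        have hl : lam (gauss 0 s hs0 : BA K) 0 = s := by
          rw [(hGLAM K 0 0).2 s hs0, sub_zero, norm_zero, max_eq_right hs0.le]
        have := (ratio hVAL hISO F (gauss 0 s hs0) (by rw [hl]; exact hs1)).2
        rw [this, hl]
        simp) t ht (by linarith)
    refine ⟨?_, by simpa using this.2⟩
    rw [this.1]; simp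
  have ht0 : 0 < t := F.ρ0.trans ht
  have hHK := (hZT K).2.2.1 0 t ht0
  induction n, hn using Nat.le_induction with
  | base => rw [(hITER K R).2.2.2]; exact key
  | succ n hn ih =>
    constructor
    · show (R.comp (R.iter n)).act _ = _
      rw [(hFUNC K).1, ih.1, key.1]
    · show localDeg (R.comp (R.iter n)) _ = _
      have := hCHAIN K R (R.iter n) (gauss 0 t ht0) hHK
      rw [← zt_pos 0 ht0] at this
      rw [this, ih.1, key.2, ih.2]

/-- upper bound of a seminorm on a disc -/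
lemma bd (x : BA K) (h : K[X]) (ρ : ℝ) (hρ : x X ≤ ρ) :
    x h ≤ ∑ i ∈ Finset.range (h.natDegree + 1), ‖h.coeff i‖ * ρ ^ i := by
  have h0 : 0 ≤ x X := x.nonneg' _
  have key : ∀ (s : Finset ℕ) (f : ℕ → K[X]), x (∑ i ∈ s, f i) ≤ ∑ i ∈ s, x (f i) := by
    intro s f
    induction s using Finset.induction_on with
    | empty => simp [BA.map_zero]
    | insert a s ha ih =>
      rw [Finset.sum_insert ha, Finset.sum_insert ha]
      refine (x.map_add' _ _).trans (max_le ?_ ?_)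
      · have : 0 ≤ ∑ i ∈ s, x (f i) := Finset.sum_nonneg fun i _ => x.nonneg' _
        linarith
      · have : 0 ≤ x (f a) := x.nonneg' _
        linarith
  conv_lhs => rw [h.as_sum_range_C_mul_X_pow]
  refine (key _ _).trans (Finset.sum_le_sum fun i _ => ?_)
  rw [x.map_mul', x.map_C', BA.map_pow]
  exact mul_le_mul_of_nonneg_left (pow_le_pow_left₀ h0 hρ i) (norm_nonneg _)

/-- small radii at a pole -/
lemma small (hVAL : S_VAL.{u}) (hISO : S_ISO.{u}) (hACT : S_ACT.{u}) (hFUNC : S_FUNC.{u})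
    (hGLAM : S_GLAM.{u}) (hITER : S_ITER.{u}) (hNPOL : S_NPOL.{u}) (hZT : S_ZT.{u})
    {R : RMap K} {ρ κ : ℝ} {e : ℕ} (F : Far R ρ κ e) (hP0 : R.P ≠ 0) (b : K)
    (hb : R.Q.eval b = 0) :
    ∃ δ > 0, ∀ s, 0 < s → s < δ → ∀ n, 1 ≤ n → (R.iter n).act (zt b s) ≠ zt b s := by
  have hbρ : ‖b‖ < ρ := F.rQ b ((mem_roots F.Q0).2 hb)
  have hPb : R.P.eval b ≠ 0 := by
    intro h
    obtain ⟨u, v, huv⟩ := R.cop
    have := congrArg (eval b) huv
    simp [h, hb] at this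
  have hPb' : 0 < ‖R.P.eval b‖ := norm_pos_iff.2 hPb
  obtain ⟨Q1, hQ1⟩ := dvd_iff_isRoot.2 (show R.Q.IsRoot b from hb)
  set C1 : ℝ := ∑ i ∈ Finset.range (Q1.natDegree + 1), ‖Q1.coeff i‖ * ρ ^ i with hC1
  have hρ0 := F.ρ0
  have hC1' : 0 ≤ C1 := Finset.sum_nonneg fun i _ => by positivity
  refine ⟨min ρ (‖R.P.eval b‖ / ((C1 + 1) * ρ)), lt_min hρ0 (by positivity), ?_⟩
  intro s hs0 hs n hn hfix
  have hs1 : s < ρ := hs.trans_le (min_le_left _ _)
  have hs2 : s * ((C1 + 1) * ρ) < ‖R.P.eval b‖ :=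
    (lt_div_iff₀ (by positivity)).1 (hs.trans_le (min_le_right _ _))
  set x : BA K := gauss b s hs0 with hx
  have hHK : HK x := (hZT K).2.2.1 b s hs0
  have hlb : lam x b = s := by
    rw [hx, (hGLAM K b b).2 s hs0, sub_self, norm_zero, max_eq_right hs0.le]
  have hl0 : lam x 0 ≤ ρ := by
    rw [hx, (hGLAM K b 0).2 s hs0, sub_zero]
    exact max_le hbρ.le hs1.le
  obtain ⟨y, hy, h1, -, h2⟩ := (hACT K R).1 x hHK
  have hQle : x R.Q ≤ s * C1 := by
    rw [hQ1, x.map_mul']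
    have e1 : x (X - C b) = s := hlb
    rw [e1]
    refine mul_le_mul_of_nonneg_left (bd x Q1 ρ ?_) hs0.le
    have : lam x 0 = x X := by unfold lam; simp
    rw [← this]; exact hl0
  have hQpos : 0 < x R.Q := (hNPOL K R.Q b s F.Q0 hs0).1
  have hPge : ‖R.P.eval b‖ ≤ x R.P := by
    have := (hNPOL K R.P b s hP0 hs0).2.1 0
    rw [taylor_coeff_zero, pow_zero, mul_one] at this
    exact this
  have hyl : ρ < lam y 0 := by
    rw [h2 0, C_0, zero_mul, sub_zero, lt_div_iff₀ hQpos]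
    calc ρ * x R.Q ≤ ρ * (s * C1) := mul_le_mul_of_nonneg_left hQle hρ0.le
      _ ≤ s * ((C1 + 1) * ρ) := by nlinarith [mul_pos hs0 hρ0]
      _ < _ := hs2
      _ ≤ _ := hPge
  obtain ⟨z, -, h3, h4, -⟩ := iter hVAL hISO hACT hFUNC F y hy hyl (n - 1)
  have h5 : (R.iter n).act (x : P1B K) = (z : P1B K) := by
    have e2 : R.iter n = (R.iter (n - 1)).comp R := by
      have := (hITER K R).2.1 (n - 1) 1
      rw [Nat.sub_add_cancel hn, (hITER K R).2.2.2] at this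
      exact this
    rw [e2, (hFUNC K).1, h1, h3]
  rw [zt_pos b hs0, h5] at hfix
  have := coe_inj hfix
  rw [this] at h4
  linarith

lemma exists_far (R : RMap K) (hd : 2 ≤ R.d) (hN : NRI R) :
    R.P ≠ 0 ∧ ∃ (ρ κ : ℝ) (e : ℕ), Far R ρ κ e := by
  classical
  obtain ⟨hQD, hle⟩ := hN
  have hQ0 : R.Q ≠ 0 := by
    intro h
    have hc := R.cop
    rw [h, isCoprime_zero_right] at hc
    have h1 := natDegree_eq_zero_of_isUnit hc
    have h2 := R.deg_eq
    rw [h, h1] at h2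
    simp at h2
    omega
  have hQlt : R.Q.natDegree < R.d := by
    have h1 : R.Q.natDegree ≤ R.d := R.deg_eq ▸ le_max_right _ _
    refine lt_of_le_of_ne h1 fun h => ?_
    rw [← h] at hQD
    exact hQ0 (leadingCoeff_eq_zero.1 hQD)
  have hPd : R.P.natDegree = R.d := by
    have := R.deg_eq
    rcases max_choice R.P.natDegree R.Q.natDegree with h | h
    · rw [h] at this; exact this
    · rw [h] at this; omega
  have hP0 : R.P ≠ 0 := by
    intro h; rw [h] at hPd; simp at hPd; omega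
  refine ⟨hP0, ?_⟩
  have hlP : 0 < ‖R.P.leadingCoeff‖ := norm_pos_iff.2 (leadingCoeff_ne_zero.2 hP0)
  have hlQ : 0 < ‖R.Q.leadingCoeff‖ := norm_pos_iff.2 (leadingCoeff_ne_zero.2 hQ0)
  set κ : ℝ := ‖R.P.leadingCoeff‖ / ‖R.Q.leadingCoeff‖ with hκ
  have hκ0 : 0 < κ := div_pos hlP hlQ
  set S : ℝ := ∑ w ∈ R.P.roots.toFinset ∪ R.Q.roots.toFinset, ‖w‖ with hS
  have hS0 : 0 ≤ S := Finset.sum_nonneg fun _ _ => norm_nonneg _
  set ρ : ℝ := S + 1 + 1 / κ with hρ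
  have hik : 0 < 1 / κ := by positivity
  have hρ1 : 1 < ρ := by rw [hρ]; linarith
  have hroot : ∀ w ∈ R.P.roots.toFinset ∪ R.Q.roots.toFinset, ‖w‖ < ρ := by
    intro w hw
    have : ‖w‖ ≤ S := Finset.single_le_sum (f := fun w => ‖w‖) (fun _ _ => norm_nonneg _) hw
    rw [hρ]; linarith
  set e : ℕ := R.d - R.Q.natDegree with he
  have he1 : 1 ≤ e := by omega
  have hstrict : ¬ (e = 1 ∧ κ = 1) → ∀ t, ρ < t → t < κ * t ^ e := by
    intro hne t ht
    have ht0 : 0 < t := by linarith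
    rcases Nat.lt_or_ge 1 e with h2 | h2
    · have e2 : e = (e - 2) + 1 + 1 := by omega
      have h3 : (1 : ℝ) ≤ t ^ (e - 2) := one_le_pow₀ (by linarith)
      have h4 : 1 < κ * t := by
        have : 1 / κ < t := by rw [hρ] at ht; linarith
        rw [div_lt_iff₀ hκ0] at this
        linarith
      have h5 : 1 < κ * t * t ^ (e - 2) := by nlinarith
      rw [e2, pow_succ, pow_succ]
      have : κ * (t ^ (e - 2) * t * t) = (κ * t * t ^ (e - 2)) * t := by ring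
      rw [this]
      nlinarith
    · have e2 : e = 1 := by omega
      rw [e2, pow_one]
      have hk1 : κ ≠ 1 := fun h => hne ⟨e2, h⟩
      have hdeg : R.Q.natDegree = R.d - 1 := by omega
      have h6 : 1 ≤ κ := by
        rw [hκ, one_le_div hlQ, leadingCoeff, leadingCoeff, hPd, hdeg]
        exact hle
      have h7 : 1 < κ := lt_of_le_of_ne h6 (Ne.symm hk1)
      nlinarith
  refine ⟨ρ, κ, e, by linarith, hκ0, ?_, ?_, by omega, he1, ?_, hQ0, ?_, ?_⟩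
  · intro w hw
    exact hroot w (Finset.mem_union_left _ (Multiset.mem_toFinset.2 hw))
  · intro w hw
    exact hroot w (Finset.mem_union_right _ (Multiset.mem_toFinset.2 hw))
  · rw [hκ, div_mul_cancel₀ _ hlQ.ne']
  · intro t ht
    by_cases hne : e = 1 ∧ κ = 1
    · rw [hne.1, hne.2]; simp
    · exact (hstrict hne t ht).le
  · by_cases hne : e = 1 ∧ κ = 1
    · exact Or.inl hne
    · exact Or.inr (hstrict hne)

theorem main : S_VAL.{u} → S_ISO.{u} → S_GLAM.{u} → S_ACT.{u} → S_FUNC.{u} → S_ITER.{u} →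
    S_NPOL.{u} → S_CHAIN.{u} → S_ZT.{u} → S_SK.{u} → S_BDD.{u} := by
  classical
  intro hVAL hISO hGLAM hACT hFUNC hITER hNPOL hCHAIN hZT hSK K _ _ _ R hd hN
  obtain ⟨hP0, ρ, κ, e, F⟩ := exists_far R hd hN
  have hsm := fun b hb => small hVAL hISO hACT hFUNC hGLAM hITER hNPOL hZT F hP0 b hb
  -- uniform delta
  have hev : ∀ᶠ δ in 𝓝[>] (0 : ℝ), ∀ b ∈ R.Q.roots.toFinset, ∀ s, 0 < s → s < δ → ∀ n, 1 ≤ n →
      (R.iter n).act (zt b s) ≠ zt b s := by
    rw [Filter.eventually_all_finset]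
    intro b hb
    have hb' : R.Q.eval b = 0 := (mem_roots F.Q0).1 (Multiset.mem_toFinset.1 hb)
    obtain ⟨δ, hδ, h⟩ := hsm b hb'
    filter_upwards [Ioo_mem_nhdsGT hδ] with δ' hδ' s hs0 hs
    exact h s hs0 (hs.trans hδ'.2)
  have hev2 : ∀ᶠ δ in 𝓝[>] (0 : ℝ), 0 < δ ∧ δ < ρ := Ioo_mem_nhdsGT F.ρ0
  obtain ⟨δ, hδ, hδ0, hδρ⟩ := (hev.and hev2).exists
  refine ⟨δ, ρ, hδ0, hδρ.le, ?_⟩
  intro n hn b s hb hs0 hE
  have hbρ : ‖b‖ < ρ := F.rQ b ((mem_roots F.Q0).2 hb)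
  have hfix : (R.iter n).act (zt b s) = zt b s := by
    rcases hE with h | h
    · exact h.1
    · exact h.1
  constructor
  · by_contra hlt
    push Not at hlt
    exact hδ b (Multiset.mem_toFinset.2 ((mem_roots F.Q0).2 hb)) s hs0 hlt n hn hfix
  · by_contra hlt
    push Not at hlt
    rcases F.alt with ⟨he, hk⟩ | hs
    · subst he; subst hk
      have hz : ∀ t, ρ < t → zt b t = zt (0 : K) t := fun t ht =>
        ((hZT K).1 b 0 t t (F.ρ0.trans ht) (F.ρ0.trans ht)).2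
          ⟨rfl, by rw [sub_zero]; exact (hbρ.trans ht).le⟩
      rcases hE with h | h
      · have h2 := h.2.1
        rw [hz s hlt, (neutral hVAL hISO hFUNC hGLAM hZT hSK hCHAIN hITER F s hlt n hn).2] at h2
        omega
      · obtain ⟨t, ht1, -, ht3⟩ := h.2.2 1 one_pos
        have ht := hlt.trans ht1
        apply ht3
        rw [hz t ht]
        exact (neutral hVAL hISO hFUNC hGLAM hZT hSK hCHAIN hITER F t ht n hn).1
    · rw [zt_pos b hs0] at hfix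
      refine strict_case hVAL hISO hACT hFUNC F hs (gauss b s hs0) ((hZT K).2.2.1 b s hs0) ?_ n hn
        hfix
      rw [(hGLAM K b 0).2 s hs0, sub_zero]
      exact hlt.trans_le (le_max_right _ _)

end Pool.Agent.W446.BE.BDD
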